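import Mathlib
import Pool.Agent.H62B.Defs

/-!
# Density of nonvanishing functions in dimension at most one
-/

set_option autoImplicit false
open Topology

namespace Pool.Agent.H62B

/-- a generic small perturbation -/
theorem exists_tau (k : ℕ) (c : Fin k → ℂ) (e : ℝ) (he : 0 < e) :
    ∃ τ : ℝ, 0 < τ ∧ τ < e ∧
      (∀ i, c i + τ * (1 + Complex.I * (i : ℕ)) ≠ 0) ∧
      ∀ i j, i ≠ j → ((c i + τ * (1 + Complex.I * (i : ℕ))) *
        (starRingEnd ℂ) (c j + τ * (1 + Complex.I * (j : ℕ)))).im ≠ 0 := by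
  classical
  -- the bad set is finite
  have h1 : ∀ i, {τ : ℝ | c i + τ * (1 + Complex.I * (i : ℕ)) = 0}.Finite := by
    intro i
    apply Set.Subsingleton.finite
    intro s hs t ht
    have hs0 : c i + s * (1 + Complex.I * (i : ℕ)) = 0 := hs
    have ht0 : c i + t * (1 + Complex.I * (i : ℕ)) = 0 := ht
    have hs' := congrArg Complex.re hs0
    have ht' := congrArg Complex.re ht0
    simp at hs' ht'
    linarith
  have h2 : ∀ i j, i ≠ j → {τ : ℝ | ((c i + τ * (1 + Complex.I * (i : ℕ))) *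
        (starRingEnd ℂ) (c j + τ * (1 + Complex.I * (j : ℕ)))).im = 0}.Finite := by
    intro i j hij
    -- the polynomial
    set p : Polynomial ℝ :=
      (Polynomial.C (c i).im + Polynomial.C ((i : ℕ) : ℝ) * Polynomial.X) *
        (Polynomial.C (c j).re + Polynomial.X) -
      (Polynomial.C (c i).re + Polynomial.X) *
        (Polynomial.C (c j).im + Polynomial.C ((j : ℕ) : ℝ) * Polynomial.X) with hp
    have heval : ∀ τ : ℝ, p.eval τ = ((c i + τ * (1 + Complex.I * (i : ℕ))) *
        (starRingEnd ℂ) (c j + τ * (1 + Complex.I * (j : ℕ)))).im := by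
      intro τ
      simp [hp]
      ring
    have hne : p ≠ 0 := by
      intro h0
      have hc : p.coeff 2 = ((i : ℕ) : ℝ) - ((j : ℕ) : ℝ) := by
        have : p = Polynomial.C (((i : ℕ) : ℝ) - ((j : ℕ) : ℝ)) * Polynomial.X ^ 2 +
            Polynomial.C ((c i).im + ((i : ℕ) : ℝ) * (c j).re - (c j).im
              - (c i).re * ((j : ℕ) : ℝ)) * Polynomial.X +
            Polynomial.C ((c i).im * (c j).re - (c i).re * (c j).im) := by
          rw [hp]
          simp only [map_sub, map_add, map_mul]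
          ring
        rw [this, Polynomial.coeff_add, Polynomial.coeff_add, Polynomial.coeff_C_mul_X_pow,
          Polynomial.coeff_C_mul_X, Polynomial.coeff_C]
        simp
      rw [h0] at hc
      simp only [Polynomial.coeff_zero] at hc
      have : ((i : ℕ) : ℝ) = ((j : ℕ) : ℝ) := by linarith
      exact hij (Fin.ext (by exact_mod_cast this))
    have : {τ : ℝ | ((c i + τ * (1 + Complex.I * (i : ℕ))) *
        (starRingEnd ℂ) (c j + τ * (1 + Complex.I * (j : ℕ)))).im = 0} = {τ | p.IsRoot τ} := by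
      ext τ
      simp only [Set.mem_ofPred_eq, Polynomial.IsRoot.def, heval]
    rw [this]
    exact Polynomial.finite_setOfPred_isRoot hne
  have hbad : ((⋃ i, {τ : ℝ | c i + τ * (1 + Complex.I * (i : ℕ)) = 0}) ∪
      ⋃ i, ⋃ j, ⋃ (_ : i ≠ j), {τ : ℝ | ((c i + τ * (1 + Complex.I * (i : ℕ))) *
        (starRingEnd ℂ) (c j + τ * (1 + Complex.I * (j : ℕ)))).im = 0}).Finite := by
    refine (Set.finite_iUnion h1).union ?_
    refine Set.finite_iUnion fun i => Set.finite_iUnion fun j => Set.finite_iUnion fun hij =>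
      h2 i j hij
  obtain ⟨τ, hτ, hτ'⟩ := ((Set.Ioo_infinite he).sdiff hbad).nonempty
  refine ⟨τ, hτ.1, hτ.2, ?_, ?_⟩
  · intro i hi
    exact hτ' (Or.inl (Set.mem_iUnion.2 ⟨i, hi⟩))
  · intro i j hij h
    exact hτ' (Or.inr (Set.mem_iUnion.2 ⟨i, Set.mem_iUnion.2 ⟨j, Set.mem_iUnion.2 ⟨hij, h⟩⟩⟩))

/-- density of nonvanishing functions -/
theorem exists_nonvanishing {X : Type*} [TopologicalSpace X] [CompactSpace X] [T2Space X]
    (hX : CovDimLE X 1) (F : C(X, ℂ)) (e : ℝ) (he : 0 < e) :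
    ∃ G : C(X, ℂ), (∀ x, G x ≠ 0) ∧ ∀ x, ‖G x - F x‖ < e := by
  classical
  -- a finite cover with small oscillation
  obtain ⟨t, ht⟩ := isCompact_univ.elim_finite_subcover
    (fun x : X => F ⁻¹' Metric.ball (F x) (e / 4))
    (fun x => Metric.isOpen_ball.preimage F.continuous)
    (fun x _ => Set.mem_iUnion.2 ⟨x, by simp [he]⟩)
  set 𝒰 : Set (Set X) := (fun x : X => F ⁻¹' Metric.ball (F x) (e / 4)) '' t with h𝒰
  obtain ⟨𝒱, hfin, hopen, hcov, href, hord⟩ := hX 𝒰 (t.finite_toSet.image _)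
    (by
      rintro U ⟨x, -, rfl⟩
      exact Metric.isOpen_ball.preimage F.continuous)
    (by
      rw [Set.eq_univ_iff_forall]
      intro y
      obtain ⟨x, hx, hxy⟩ := Set.mem_iUnion₂.1 (ht (Set.mem_univ y))
      exact ⟨_, ⟨x, hx, rfl⟩, hxy⟩)
  have hcen : ∀ V : 𝒱, ∃ z : ℂ, ∀ y ∈ (V : Set X), ‖F y - z‖ < e / 4 := by
    rintro ⟨V, hV⟩
    obtain ⟨U, ⟨x, -, rfl⟩, hVU⟩ := href V hV
    refine ⟨F x, fun y hy => ?_⟩
    have := hVU hy
    simpa [dist_eq_norm] using this
  choose z hz using hcen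
  have : Finite 𝒱 := hfin.to_subtype
  have : Fintype 𝒱 := Fintype.ofFinite _
  set en := Fintype.equivFin 𝒱 with hen
  set k := Fintype.card 𝒱 with hk
  obtain ⟨τ, hτ0, hτ1, hτ2, hτ3⟩ := exists_tau k (fun i => z (en.symm i)) (e / (4 * (k + 1)))
    (by positivity)
  set c : 𝒱 → ℂ := fun V => z V + τ * (1 + Complex.I * ((en V : Fin k) : ℕ)) with hc
  have hc0 : ∀ V, c V ≠ 0 := by
    intro V
    have := hτ2 (en V)
    simpa [hc] using this
  have hcim : ∀ V W, V ≠ W → (c V * (starRingEnd ℂ) (c W)).im ≠ 0 := by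
    intro V W hVW
    have := hτ3 (en V) (en W) (fun h => hVW (en.injective h))
    simpa only [hc, Equiv.symm_apply_apply] using this
  have hcz : ∀ V, ‖c V - z V‖ < e / 4 := by
    intro V
    have h1 : c V - z V = τ * (1 + Complex.I * ((en V : Fin k) : ℕ)) := by
      simp [hc]
    rw [h1, norm_mul, Complex.norm_real, Real.norm_eq_abs, abs_of_pos hτ0]
    have h2 : ‖(1 : ℂ) + Complex.I * ((en V : Fin k) : ℕ)‖ ≤ 1 + k := by
      refine (norm_add_le _ _).trans ?_
      rw [norm_mul, Complex.norm_I, one_mul, norm_one]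
      have : ((en V : Fin k) : ℕ) ≤ k := (en V).2.le
      have h3 : ‖(((en V : Fin k) : ℕ) : ℂ)‖ = (((en V : Fin k) : ℕ) : ℝ) := by
        simp
      rw [h3]
      have : (((en V : Fin k) : ℕ) : ℝ) ≤ k := by exact_mod_cast this
      linarith
    have hk0 : (0:ℝ) < 1 + k := by positivity
    calc τ * ‖(1 : ℂ) + Complex.I * ((en V : Fin k) : ℕ)‖ ≤ τ * (1 + k) :=
          mul_le_mul_of_nonneg_left h2 hτ0.le
      _ < e / (4 * (k + 1)) * (1 + k) := mul_lt_mul_of_pos_right hτ1 hk0
      _ = e / 4 := by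
          field_simp
          ring
  -- partition of unity
  obtain ⟨f, hf⟩ := PartitionOfUnity.exists_isSubordinate (s := (Set.univ : Set X)) isClosed_univ
    (fun V : 𝒱 => (V : Set X)) (fun V => hopen V V.2)
    (by
      intro x _
      have : x ∈ ⋃₀ 𝒱 := by rw [hcov]; trivial
      obtain ⟨V, hV, hxV⟩ := this
      exact Set.mem_iUnion.2 ⟨⟨V, hV⟩, hxV⟩)
  have hsum : ∀ x, ∑ V, f V x = 1 := by
    intro x
    have := f.sum_eq_one (Set.mem_univ x)
    rwa [finsum_eq_sum_of_fintype] at this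
  have hmem : ∀ V x, f V x ≠ 0 → x ∈ (V : Set X) := by
    intro V x hVx
    exact hf V (subset_tsupport _ hVx)
  refine ⟨⟨fun x => ∑ V, (f V x : ℂ) * c V, ?_⟩, ?_, ?_⟩
  · refine continuous_finsetSum _ (fun V _ => ?_)
    exact (Complex.continuous_ofReal.comp (f V).continuous).mul continuous_const
  · intro x hx0
    have hx : ∑ V, (f V x : ℂ) * c V = 0 := hx0
    obtain ⟨V₁, hV₁⟩ := f.exists_pos (Set.mem_univ x)
    by_cases hex : ∃ V₂, V₂ ≠ V₁ ∧ f V₂ x ≠ 0
    · obtain ⟨V₂, hne, hV₂⟩ := hex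
      have hrest : ∀ V, V ≠ V₁ ∧ V ≠ V₂ → f V x = 0 := by
        intro V hV
        by_contra hVx
        have hsub : ({(V₁ : Set X), (V₂ : Set X), (V : Set X)} : Set (Set X)) ⊆
            {V ∈ 𝒱 | x ∈ V} := by
          intro W hW
          simp only [Set.mem_insert_iff, Set.mem_singleton_iff] at hW
          rcases hW with rfl | rfl | rfl
          · exact ⟨V₁.2, hmem _ _ hV₁.ne'⟩
          · exact ⟨V₂.2, hmem _ _ hV₂⟩
          · exact ⟨V.2, hmem _ _ hVx⟩
        have h3 : ({(V₁ : Set X), (V₂ : Set X), (V : Set X)} : Set (Set X)).encard = 3 := by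
          rw [Set.encard_eq_three]
          exact ⟨_, _, _, fun h => hne (Subtype.ext h.symm), fun h => hV.1 (Subtype.ext h.symm),
            fun h => hV.2 (Subtype.ext h.symm), rfl⟩
        have h4 := (Set.encard_le_encard hsub).trans (hord x)
        rw [h3] at h4
        norm_num at h4
      have h5 : ∑ V, (f V x : ℂ) * c V = (f V₁ x : ℂ) * c V₁ + (f V₂ x : ℂ) * c V₂ := by
        refine Fintype.sum_eq_add V₁ V₂ hne.symm ?_
        intro V hV
        rw [hrest V hV]
        simp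
      rw [h5] at hx
      have h6 := congrArg (fun w : ℂ => (w * (starRingEnd ℂ) (c V₁)).im) hx
      simp only [zero_mul, Complex.zero_im] at h6
      have h7 : (((f V₁ x : ℂ) * c V₁ + (f V₂ x : ℂ) * c V₂) * (starRingEnd ℂ) (c V₁)).im
          = f V₂ x * (c V₂ * (starRingEnd ℂ) (c V₁)).im := by
        simp
        ring
      rw [h7] at h6
      rcases mul_eq_zero.1 h6 with h | h
      · exact hV₂ h
      · exact hcim V₂ V₁ hne h
    · push Not at hex
      have h5 : ∑ V, (f V x : ℂ) * c V = (f V₁ x : ℂ) * c V₁ := by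
        refine Fintype.sum_eq_single V₁ ?_
        intro V hV
        rw [hex V hV]
        simp
      rw [h5] at hx
      rcases mul_eq_zero.1 hx with h | h
      · exact hV₁.ne' (by exact_mod_cast h)
      · exact hc0 V₁ h
  · intro x
    have h1 : (∑ V, (f V x : ℂ) * c V) - F x = ∑ V, (f V x : ℂ) * (c V - F x) := by
      simp only [mul_sub, Finset.sum_sub_distrib]
      rw [← Finset.sum_mul]
      have : ∑ V, (f V x : ℂ) = 1 := by
        have := hsum x
        exact_mod_cast this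
      rw [this, one_mul]
    show ‖(∑ V, (f V x : ℂ) * c V) - F x‖ < e
    rw [h1]
    have h2 : ∀ V, ‖(f V x : ℂ) * (c V - F x)‖ ≤ f V x * (e / 2) := by
      intro V
      rw [norm_mul, Complex.norm_real, Real.norm_eq_abs, abs_of_nonneg (f.nonneg V x)]
      by_cases hVx : f V x = 0
      · simp [hVx]
      · refine mul_le_mul_of_nonneg_left ?_ (f.nonneg V x)
        have h3 := hz V x (hmem V x hVx)
        have h4 := hcz V
        have h5 : c V - F x = (c V - z V) - (F x - z V) := by ring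
        rw [h5]
        refine (norm_sub_le _ _).trans ?_
        linarith
    calc ‖∑ V, (f V x : ℂ) * (c V - F x)‖ ≤ ∑ V, ‖(f V x : ℂ) * (c V - F x)‖ := norm_sum_le _ _
      _ ≤ ∑ V, f V x * (e / 2) := Finset.sum_le_sum (fun V _ => h2 V)
      _ = e / 2 := by rw [← Finset.sum_mul, hsum x, one_mul]
      _ < e := by linarith

end Pool.Agent.H62B
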