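import Mathlib
import Pool.Agent.H62B.Defs
import Pool.Agent.H62B.Approx

/-!
# Extension of circle valued maps and of maps with prescribed modulus
-/

set_option autoImplicit false
open Topology

namespace Pool.Agent.H62B

variable {X : Type*} [TopologicalSpace X] [CompactSpace X] [T2Space X]

/-- Tietze for complex functions given on a closed set -/
theorem tietze {A : Set X} (hA : IsClosed A) (w : X → ℂ) (hw : ContinuousOn w A) :
    ∃ W : C(X, ℂ), ∀ x ∈ A, W x = w x := by
  obtain ⟨W, hW⟩ := ContinuousMap.exists_restrict_eq hA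
    (⟨A.domRestrict w, continuousOn_iff_continuous_domRestrict.1 hw⟩ : C(A, ℂ))
  exact ⟨W, fun x hx => congrArg (fun g : C(A, ℂ) => g ⟨x, hx⟩) hW⟩

/-- extension of circle valued maps in dimension at most one -/
theorem extend_circle (hX : CovDimLE X 1) {A : Set X} (hA : IsClosed A) (w : X → ℂ)
    (hw : ContinuousOn w A) (hw1 : ∀ x ∈ A, ‖w x‖ = 1) :
    ∃ W : C(X, ℂ), (∀ x, ‖W x‖ = 1) ∧ ∀ x ∈ A, W x = w x := by
  obtain ⟨F, hF⟩ := tietze hA w hw
  obtain ⟨G, hG0, hG⟩ := exists_nonvanishing hX F (1 / 2) (by norm_num)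
  have hw0 : ∀ x ∈ A, w x ≠ 0 := by
    intro x hx h0
    have := hw1 x hx
    rw [h0, norm_zero] at this
    norm_num at this
  have hq : ∀ x ∈ A, G x / w x ∈ Complex.slitPlane := by
    intro x hx
    have h1 : ‖G x / w x - 1‖ < 1 := by
      have h2 : G x / w x - 1 = (G x - F x) / w x := by
        rw [hF x hx, sub_div, div_self (hw0 x hx)]
      rw [h2, norm_div, hw1 x hx, div_one]
      exact (hG x).trans (by norm_num)
    have h3 : |(G x / w x - 1).re| < 1 := (Complex.abs_re_le_norm _).trans_lt h1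
    rw [Complex.sub_re, Complex.one_re] at h3
    left
    have := (abs_lt.1 h3).1
    linarith
  obtain ⟨L, hL⟩ := tietze hA (fun x => Complex.log (G x / w x))
    ((G.continuous.continuousOn.div hw hw0).clog hq)
  have hH0 : ∀ x, G x * Complex.exp (-L x) ≠ 0 := fun x =>
    mul_ne_zero (hG0 x) (Complex.exp_ne_zero _)
  have hcont : Continuous (fun x => G x * Complex.exp (-L x)) :=
    G.continuous.mul (Complex.continuous_exp.comp L.continuous.neg)
  refine ⟨⟨fun x => (G x * Complex.exp (-L x)) / ((‖G x * Complex.exp (-L x)‖ : ℝ) : ℂ), ?_⟩,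
    ?_, ?_⟩
  · refine hcont.div (Complex.continuous_ofReal.comp hcont.norm) (fun x => ?_)
    exact_mod_cast norm_ne_zero_iff.2 (hH0 x)
  · intro x
    show ‖(G x * Complex.exp (-L x)) / ((‖G x * Complex.exp (-L x)‖ : ℝ) : ℂ)‖ = 1
    rw [norm_div, Complex.norm_real, norm_norm]
    exact div_self (norm_ne_zero_iff.2 (hH0 x))
  · intro x hx
    have h1 : G x * Complex.exp (-L x) = w x := by
      rw [hL x hx, Complex.exp_neg, Complex.exp_log (div_ne_zero (hG0 x) (hw0 x hx))]
      field_simp [hG0 x, hw0 x hx]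
    show (G x * Complex.exp (-L x)) / ((‖G x * Complex.exp (-L x)‖ : ℝ) : ℂ) = w x
    rw [h1, hw1 x hx]
    simp

/-- one step of the shell construction -/
theorem shell_step (hX : CovDimLE X 1) {A : Set X} (hA : IsClosed A) (m : C(X, ℝ))
    (w : X → ℂ) (hw : ContinuousOn w A) (hwm : ∀ x ∈ A, ‖w x‖ = m x) (a b : ℝ) (hb : 0 < b)
    (ω : C(X, ℂ)) (hω1 : ∀ x, ‖ω x‖ = 1)
    (hω : ∀ x ∈ A, a ≤ m x → ω x * m x = w x) :
    ∃ ω' : C(X, ℂ), (∀ x, ‖ω' x‖ = 1) ∧ (∀ x ∈ A, b ≤ m x → ω' x * m x = w x) ∧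
      ∀ x, a ≤ m x → ω' x = ω x := by
  classical
  set S₁ : Set X := {x | a ≤ m x} with hS₁
  set S₂ : Set X := A ∩ {x | b ≤ m x} with hS₂
  have hS₁c : IsClosed S₁ := isClosed_le continuous_const m.continuous
  have hS₂c : IsClosed S₂ := hA.inter (isClosed_le continuous_const m.continuous)
  set φ : X → ℂ := fun x => if a ≤ m x then ω x else w x / m x with hφ
  have h1 : ContinuousOn φ S₁ := by
    refine ω.continuous.continuousOn.congr (fun x hx => ?_)
    have hx' : a ≤ m x := hx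
    simp [hφ, hx']
  have hm0 : ∀ x ∈ S₂, (m x : ℂ) ≠ 0 := by
    rintro x ⟨-, hx⟩
    have hx' : b ≤ m x := hx
    have : 0 < m x := hb.trans_le hx'
    exact_mod_cast this.ne'
  have h2 : ContinuousOn φ S₂ := by
    have h3 : ContinuousOn (fun x => w x / m x) S₂ :=
      (hw.mono Set.inter_subset_left).div
        (Complex.continuous_ofReal.comp m.continuous).continuousOn hm0
    refine h3.congr (fun x hx => ?_)
    by_cases hax : a ≤ m x
    · simp only [hφ, hax, if_true]
      rw [← hω x hx.1 hax]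
      field_simp [hm0 x hx]
    · simp [hφ, hax]
  have h3 : ContinuousOn φ (S₁ ∪ S₂) := h1.union_of_isClosed h2 hS₁c hS₂c
  have h4 : ∀ x ∈ S₁ ∪ S₂, ‖φ x‖ = 1 := by
    intro x hx
    by_cases hax : a ≤ m x
    · simp [hφ, hax, hω1]
    · rcases hx with hx | hx
      · exact absurd hx hax
      · simp only [hφ, hax, if_false]
        rw [norm_div, hwm x hx.1, Complex.norm_real, Real.norm_eq_abs, abs_of_pos]
        · refine div_self ?_
          have := hm0 x hx
          exact_mod_cast this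
        · exact hb.trans_le hx.2
  obtain ⟨ω', hω'1, hω'⟩ := extend_circle hX (hS₁c.union hS₂c) φ h3 h4
  refine ⟨ω', hω'1, ?_, ?_⟩
  · intro x hxA hbx
    rw [hω' x (Or.inr ⟨hxA, hbx⟩)]
    by_cases hax : a ≤ m x
    · simp only [hφ, hax, if_true]
      exact hω x hxA hax
    · simp only [hφ, hax, if_false]
      field_simp [hm0 x ⟨hxA, hbx⟩]
  · intro x hax
    rw [hω' x (Or.inl hax)]
    simp [hφ, hax]

/-- extension with prescribed modulus -/
theorem extend_modulus (hX : CovDimLE X 1) {A : Set X} (hA : IsClosed A) (m : C(X, ℝ))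
    (hm : ∀ x, 0 ≤ m x)
    (w : X → ℂ) (hw : ContinuousOn w A) (hwm : ∀ x ∈ A, ‖w x‖ = m x) :
    ∃ W : C(X, ℂ), (∀ x, ‖W x‖ = m x) ∧ ∀ x ∈ A, W x = w x := by
  classical
  -- the sequence
  have hbase : ∃ ω : C(X, ℂ), (∀ x, ‖ω x‖ = 1) ∧
      (∀ x ∈ A, ((1:ℝ) / 2) ^ 0 ≤ m x → ω x * m x = w x) := by
    obtain ⟨ω, h1, h2, -⟩ := shell_step hX hA m w hw hwm
      (‖m‖ + 1) (min (((1:ℝ) / 2) ^ 0) (‖m‖ + 1)) (by positivity) 1
      (by intro x; simp)
      (by
        intro x _ hx
        have := m.norm_coe_le_norm x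
        rw [Real.norm_eq_abs, abs_of_nonneg (hm x)] at this
        linarith)
    refine ⟨ω, h1, fun x hx hx2 => h2 x hx ((min_le_left _ _).trans hx2)⟩
  let Q : ℕ → Type _ := fun n => {ω : C(X, ℂ) // (∀ x, ‖ω x‖ = 1) ∧
      (∀ x ∈ A, ((1:ℝ) / 2) ^ n ≤ m x → ω x * m x = w x)}
  have hstep : ∀ n (ω : Q n), ∃ ω' : Q (n + 1), ∀ x, ((1:ℝ) / 2) ^ n ≤ m x → ω'.1 x = ω.1 x := by
    intro n ω
    obtain ⟨ω', h1, h2, h3⟩ := shell_step hX hA m w hw hwm (((1:ℝ) / 2) ^ n)
      (((1:ℝ) / 2) ^ (n + 1)) (by positivity) ω.1 ω.2.1 ω.2.2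
    exact ⟨⟨ω', h1, h2⟩, h3⟩
  choose nxt hnxt using hstep
  let seq : (n : ℕ) → Q n := fun n => Nat.rec ⟨hbase.choose, hbase.choose_spec⟩ nxt n
  have hseq : ∀ n x, ((1:ℝ) / 2) ^ n ≤ m x → (seq (n + 1)).1 x = (seq n).1 x := by
    intro n x hx
    exact hnxt n (seq n) x hx
  let mC : C(X, ℂ) := ⟨fun x => (m x : ℂ), Complex.continuous_ofReal.comp m.continuous⟩
  let Wn : ℕ → C(X, ℂ) := fun n => (seq n).1 * mC
  have hWn : ∀ n x, Wn n x = (seq n).1 x * m x := fun n x => rfl
  have hdist : ∀ n, dist (Wn n) (Wn (n + 1)) ≤ 2 * (1 / 2) ^ n := by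
    intro n
    rw [ContinuousMap.dist_le (by positivity)]
    intro x
    rw [dist_eq_norm, hWn n x, hWn (n + 1) x]
    by_cases hx : ((1:ℝ) / 2) ^ n ≤ m x
    · rw [hseq n x hx, sub_self, norm_zero]
      positivity
    · push Not at hx
      refine (norm_sub_le _ _).trans ?_
      rw [norm_mul, norm_mul, (seq n).2.1, (seq (n + 1)).2.1, Complex.norm_real, Real.norm_eq_abs,
        abs_of_nonneg (hm x)]
      linarith
  have hcauchy : CauchySeq Wn := by
    refine cauchySeq_of_le_geometric (1 / 2) 2 (by norm_num) hdist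
  obtain ⟨W, hW⟩ := cauchySeq_tendsto_of_complete hcauchy
  have hpt : ∀ x, Filter.Tendsto (fun n => Wn n x) Filter.atTop (𝓝 (W x)) := by
    intro x
    exact ((continuous_eval_const x).tendsto W).comp hW
  refine ⟨W, ?_, ?_⟩
  · intro x
    have h1 : Filter.Tendsto (fun n => ‖Wn n x‖) Filter.atTop (𝓝 ‖W x‖) := (hpt x).norm
    have h2 : (fun n => ‖Wn n x‖) = fun _ => m x := by
      funext n
      rw [hWn, norm_mul, (seq n).2.1, Complex.norm_real, Real.norm_eq_abs, abs_of_nonneg (hm x),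
        one_mul]
    rw [h2] at h1
    exact (tendsto_nhds_unique h1 tendsto_const_nhds)
  · intro x hx
    rcases (hm x).eq_or_lt with h0 | hpos
    · have h1 : w x = 0 := by
        rw [← norm_eq_zero, hwm x hx, ← h0]
      have h2 : Filter.Tendsto (fun n => Wn n x) Filter.atTop (𝓝 0) := by
        have : (fun n => Wn n x) = fun _ => 0 := by
          funext n
          rw [hWn, ← h0]
          simp
        rw [this]
        exact tendsto_const_nhds
      rw [h1]
      exact tendsto_nhds_unique (hpt x) h2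
    · obtain ⟨n, hn⟩ := exists_pow_lt_of_lt_one hpos (show (1:ℝ) / 2 < 1 by norm_num)
      have h2 : Filter.Tendsto (fun n => Wn n x) Filter.atTop (𝓝 (w x)) := by
        refine tendsto_const_nhds.congr' ?_
        filter_upwards [Filter.eventually_ge_atTop n] with k hk
        rw [hWn]
        refine ((seq k).2.2 x hx ?_).symm
        exact (pow_le_pow_of_le_one (by norm_num) (by norm_num) hk).trans hn.le
      exact tendsto_nhds_unique (hpt x) h2

end Pool.Agent.H62B
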