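import Mathlib

/-!
# The pointwise factorization and phases
-/

set_option autoImplicit false
open Topology

namespace Pool.Agent.H62B

/-- `w = exp (log (1 + q) / 2)` -/
noncomputable def rt (q : ℂ) : ℂ := Complex.exp (Complex.log (1 + q) / 2)

theorem rt_sq (q : ℂ) (hq : ‖q‖ < 1) : rt q * rt q = 1 + q := by
  have h1 : (1:ℂ) + q ≠ 0 := by
    intro h
    have : q = -1 := by linear_combination h
    rw [this, norm_neg, norm_one] at hq
    exact lt_irrefl _ hq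
  rw [rt, ← Complex.exp_add]
  have : Complex.log (1 + q) / 2 + Complex.log (1 + q) / 2 = Complex.log (1 + q) := by ring
  rw [this, Complex.exp_log h1]

theorem rt_re (q : ℂ) : 0 ≤ (rt q).re := by
  rw [rt, Complex.exp_re]
  refine mul_nonneg (Real.exp_pos _).le ?_
  have h : (Complex.log (1 + q) / 2).im = (1 + q).arg / 2 := by
    have : Complex.log (1 + q) / 2 = ((1/2 : ℝ) : ℂ) * Complex.log (1 + q) := by
      push_cast; ring
    rw [this, Complex.im_ofReal_mul, Complex.log_im]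
    ring
  rw [h]
  apply Real.cos_nonneg_of_neg_pi_div_two_le_of_le
  · have := Complex.neg_pi_lt_arg (1 + q)
    linarith
  · have := Complex.arg_le_pi (1 + q)
    linarith

theorem one_le_norm_one_add_rt (q : ℂ) : 1 ≤ ‖1 + rt q‖ := by
  have h1 : (1 + rt q).re ≤ ‖1 + rt q‖ := Complex.re_le_norm _
  have h2 := rt_re q
  rw [Complex.add_re, Complex.one_re] at h1
  linarith

/-- the small parameter `4 conj a conj b D / R ^ 2` -/
noncomputable def qq (a b D : ℂ) (R : ℝ) : ℂ :=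
  4 * (starRingEnd ℂ a) * (starRingEnd ℂ b) * D / (R : ℂ) ^ 2

/-- the correction parameter -/
noncomputable def th (a b D : ℂ) (R : ℝ) : ℂ := 2 * D / ((R : ℂ) * (1 + rt (qq a b D R)))

theorem one_add_rt_ne (q : ℂ) : 1 + rt q ≠ 0 := by
  intro h
  have := one_le_norm_one_add_rt q
  rw [h, norm_zero] at this
  linarith

theorem norm_th_le (a b D : ℂ) (R : ℝ) (hR : 0 < R) : ‖th a b D R‖ ≤ 2 * ‖D‖ / R := by
  rw [th, norm_div, norm_mul, norm_mul, Complex.norm_real, Real.norm_eq_abs, abs_of_pos hR]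
  have h1 := one_le_norm_one_add_rt (qq a b D R)
  have h2 : ‖(2:ℂ)‖ = 2 := by simp
  rw [h2]
  refine div_le_div_of_nonneg_left (by positivity) hR ?_
  nlinarith

theorem prod_formula (a b D : ℂ) (R : ℝ) (hR : R = ‖a‖ ^ 2 + ‖b‖ ^ 2) (hR0 : 0 < R)
    (hq : ‖qq a b D R‖ < 1) :
    (a + th a b D R * starRingEnd ℂ b) * (b + th a b D R * starRingEnd ℂ a) = a * b + D := by
  have hRc : (R : ℂ) = a * starRingEnd ℂ a + b * starRingEnd ℂ b := by
    rw [hR, Complex.mul_conj, Complex.mul_conj, Complex.normSq_eq_norm_sq,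
      Complex.normSq_eq_norm_sq]
    push_cast
    ring
  have hRne : (R : ℂ) ≠ 0 := by exact_mod_cast hR0.ne'
  set q := qq a b D R with hqdef
  set s : ℂ := 1 + rt q with hs
  have hsne : s ≠ 0 := one_add_rt_ne q
  have hs2 : s ^ 2 = 2 * s + q := by
    have := rt_sq q hq
    rw [hs]
    linear_combination this
  have hqR : q * (R : ℂ) ^ 2 = 4 * (starRingEnd ℂ a) * (starRingEnd ℂ b) * D := by
    rw [hqdef, qq]
    field_simp
  have hth : th a b D R * ((R : ℂ) * s) = 2 * D := by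
    rw [th, ← hqdef, ← hs]
    field_simp
  set t := th a b D R with ht
  have h1 : t * (R : ℂ) + t ^ 2 * (starRingEnd ℂ a * starRingEnd ℂ b) = D := by
    have h2 : (R : ℂ) ^ 2 * s ^ 2 ≠ 0 := mul_ne_zero (pow_ne_zero _ hRne) (pow_ne_zero _ hsne)
    apply mul_left_cancel₀ h2
    have h3 : (t * ((R : ℂ) * s)) ^ 2 = 4 * D ^ 2 := by rw [hth]; ring
    calc (R : ℂ) ^ 2 * s ^ 2 * (t * (R : ℂ) + t ^ 2 * (starRingEnd ℂ a * starRingEnd ℂ b))
        = (R : ℂ) ^ 2 * s * (t * ((R : ℂ) * s))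
          + (t * ((R : ℂ) * s)) ^ 2 * (starRingEnd ℂ a * starRingEnd ℂ b) := by ring
      _ = (R : ℂ) ^ 2 * s * (2 * D) + 4 * D ^ 2 * (starRingEnd ℂ a * starRingEnd ℂ b) := by
          rw [h3, hth]
      _ = (R : ℂ) ^ 2 * (2 * s) * D + D * (4 * (starRingEnd ℂ a) * (starRingEnd ℂ b) * D) := by
          ring
      _ = (R : ℂ) ^ 2 * (2 * s) * D + D * (q * (R : ℂ) ^ 2) := by rw [hqR]
      _ = (R : ℂ) ^ 2 * (2 * s + q) * D := by ring
      _ = (R : ℂ) ^ 2 * s ^ 2 * D := by rw [hs2]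
  calc (a + t * starRingEnd ℂ b) * (b + t * starRingEnd ℂ a)
      = a * b + (t * (a * starRingEnd ℂ a + b * starRingEnd ℂ b)
        + t ^ 2 * (starRingEnd ℂ a * starRingEnd ℂ b)) := by ring
    _ = a * b + D := by rw [← hRc, h1]

theorem norm_qq_le (a b D : ℂ) (R : ℝ) (hR0 : 0 < R) (hR : ‖a‖ ^ 2 + ‖b‖ ^ 2 ≤ R) :
    ‖qq a b D R‖ ≤ 2 * ‖D‖ / R := by
  rw [qq, norm_div, norm_mul, norm_mul, norm_mul, norm_pow, Complex.norm_real, Real.norm_eq_abs,
    abs_of_pos hR0]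
  have h4 : ‖(4:ℂ)‖ = 4 := by simp
  rw [h4, RCLike.norm_conj, RCLike.norm_conj, div_le_div_iff₀ (by positivity) hR0]
  have h5 : 2 * (‖a‖ * ‖b‖) ≤ R := by nlinarith [sq_nonneg (‖a‖ - ‖b‖)]
  have h6 : 0 ≤ ‖D‖ * R := by positivity
  nlinarith [mul_le_mul_of_nonneg_right h5 h6]

/-- phase transfer: replacing the modulus of a continuous function -/
theorem phase_continuousOn {X : Type*} [TopologicalSpace X] {A : Set X} (F : X → ℂ) (M : X → ℝ)
    (hF : ContinuousOn F A) (hM : ContinuousOn M A)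
    (h0 : ∀ x ∈ A, F x = 0 → M x = 0) :
    ContinuousOn (fun x => (M x : ℂ) * (F x / (‖F x‖ : ℝ))) A := by
  intro x hx
  by_cases hFx : F x = 0
  · have hval : (M x : ℂ) * (F x / (‖F x‖ : ℝ)) = 0 := by
      rw [h0 x hx hFx]
      simp
    show Filter.Tendsto (fun y => (M y : ℂ) * (F y / (‖F y‖ : ℝ))) (𝓝[A] x)
      (𝓝 ((M x : ℂ) * (F x / (‖F x‖ : ℝ))))
    rw [hval]
    have hM0 : Filter.Tendsto (fun y => |M y|) (𝓝[A] x) (𝓝 0) := by
      have h1 : Filter.Tendsto (fun y => |M y|) (𝓝[A] x) (𝓝 |M x|) := (hM x hx).abs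
      rwa [h0 x hx hFx, abs_zero] at h1
    refine squeeze_zero_norm (fun y => ?_) hM0
    rw [norm_mul, Complex.norm_real, Real.norm_eq_abs, norm_div, Complex.norm_real, norm_norm]
    have : ‖F y‖ / ‖F y‖ ≤ 1 := div_self_le_one _
    calc |M y| * (‖F y‖ / ‖F y‖) ≤ |M y| * 1 := mul_le_mul_of_nonneg_left this (abs_nonneg _)
      _ = |M y| := mul_one _
  · have h1 : ContinuousWithinAt (fun y => ((M y : ℝ) : ℂ)) A x :=
      Complex.continuous_ofReal.continuousAt.comp_continuousWithinAt (hM x hx)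
    have h2 : ContinuousWithinAt (fun y => ((‖F y‖ : ℝ) : ℂ)) A x :=
      Complex.continuous_ofReal.continuousAt.comp_continuousWithinAt (hF x hx).norm
    refine h1.mul ((hF x hx).div h2 ?_)
    exact_mod_cast norm_ne_zero_iff.2 hFx

theorem phase_norm (F : ℂ) (M : ℝ) (hM : 0 ≤ M) (h0 : F = 0 → M = 0) :
    ‖(M : ℂ) * (F / (‖F‖ : ℝ))‖ = M := by
  rw [norm_mul, Complex.norm_real, Real.norm_eq_abs, norm_div, Complex.norm_real, norm_norm,
    abs_of_nonneg hM]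
  by_cases hF : F = 0
  · rw [h0 hF]; simp
  · rw [div_self (norm_ne_zero_iff.2 hF), mul_one]

/-- the moduli with prescribed product `p` and prescribed difference of squares `r` -/
noncomputable def md (p r : ℝ) : ℝ := Real.sqrt ((r + Real.sqrt (r ^ 2 + 4 * p ^ 2)) / 2)

theorem md_nonneg (p r : ℝ) : 0 ≤ md p r := Real.sqrt_nonneg _

theorem abs_le_sq (p r : ℝ) : |r| ≤ Real.sqrt (r ^ 2 + 4 * p ^ 2) := by
  apply Real.le_sqrt_of_sq_le
  rw [sq_abs]
  nlinarith [sq_nonneg p]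

theorem md_mul (p r : ℝ) (hp : 0 ≤ p) : md p r * md p (-r) = p := by
  have h := abs_le_sq p r
  have h1 := neg_abs_le r
  have h2 := le_abs_self r
  rw [md, md, ← Real.sqrt_mul (by linarith), neg_sq]
  have h3 : (r + Real.sqrt (r ^ 2 + 4 * p ^ 2)) / 2 * ((-r + Real.sqrt (r ^ 2 + 4 * p ^ 2)) / 2)
      = p ^ 2 := by
    have h4 : Real.sqrt (r ^ 2 + 4 * p ^ 2) * Real.sqrt (r ^ 2 + 4 * p ^ 2) = r ^ 2 + 4 * p ^ 2 :=
      Real.mul_self_sqrt (by positivity)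
    nlinarith
  rw [h3, Real.sqrt_sq hp]

theorem md_zero_right (p : ℝ) (hp : 0 ≤ p) : md p 0 = Real.sqrt p := by
  rw [md]
  congr 1
  have : Real.sqrt (0 ^ 2 + 4 * p ^ 2) = 2 * p := by
    rw [show (0:ℝ) ^ 2 + 4 * p ^ 2 = (2 * p) ^ 2 by ring]
    exact Real.sqrt_sq (by linarith)
  rw [this]
  ring

theorem md_eq (x y : ℝ) (hx : 0 ≤ x) : md (x * y) (x ^ 2 - y ^ 2) = x := by
  rw [md]
  have : Real.sqrt ((x ^ 2 - y ^ 2) ^ 2 + 4 * (x * y) ^ 2) = x ^ 2 + y ^ 2 := by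
    rw [show (x ^ 2 - y ^ 2) ^ 2 + 4 * (x * y) ^ 2 = (x ^ 2 + y ^ 2) ^ 2 by ring]
    exact Real.sqrt_sq (by positivity)
  rw [this, show (x ^ 2 - y ^ 2 + (x ^ 2 + y ^ 2)) / 2 = x ^ 2 by ring]
  exact Real.sqrt_sq hx

theorem md_zero_left (r : ℝ) (hr : r ≤ 0) : md 0 r = 0 := by
  rw [md]
  have : Real.sqrt (r ^ 2 + 4 * 0 ^ 2) = -r := by
    rw [show r ^ 2 + 4 * 0 ^ 2 = (-r) ^ 2 by ring]
    exact Real.sqrt_sq (by linarith)
  rw [this]
  simp

theorem md_sq_le (p r : ℝ) (hp : 0 ≤ p) : md p r ^ 2 ≤ |r| + p := by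
  have h := abs_le_sq p r
  have h1 := neg_abs_le r
  have h2 := le_abs_self r
  rw [md, Real.sq_sqrt (by linarith)]
  have h3 : Real.sqrt (r ^ 2 + 4 * p ^ 2) ≤ |r| + 2 * p := by
    apply Real.sqrt_le_iff.2
    refine ⟨by positivity, ?_⟩
    have : 0 ≤ |r| * p := by positivity
    nlinarith [sq_abs r]
  linarith

end Pool.Agent.H62B
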