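import Mathlib
import Pool.Agent.H62B.Defs
import Pool.Agent.H62B.Extend
import Pool.Agent.H62B.Local

/-!
# Factorization close to a given pair
-/

set_option autoImplicit false
open Topology

namespace Pool.Agent.H62B

variable {X : Type*} [TopologicalSpace X] [CompactSpace X] [T2Space X]

omit [CompactSpace X] [T2Space X] in
theorem continuous_rt_comp (q : X → ℂ) (hq : Continuous q) (hq1 : ∀ x, ‖q x‖ < 1) :
    Continuous (fun x => rt (q x)) := by
  unfold rt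
  refine Complex.continuous_exp.comp (Continuous.div_const ?_ _)
  refine Continuous.clog (continuous_const.add hq) (fun x => ?_)
  left
  have h1 : |(q x).re| < 1 := (Complex.abs_re_le_norm _).trans_lt (hq1 x)
  rw [Complex.add_re, Complex.one_re]
  have := (abs_lt.1 h1).1
  linarith

/-- the factorization theorem -/
theorem factor (hX : CovDimLE X 1) (a b h : C(X, ℂ)) (η : ℝ) (hη : 0 < η)
    (hh : ∀ x, ‖h x - a x * b x‖ < η ^ 2 / 16) :
    ∃ u v : C(X, ℂ), u * v = h ∧ (∀ x, ‖u x - a x‖ ≤ 3 * η) ∧ ∀ x, ‖v x - b x‖ ≤ 3 * η := by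
  classical
  have hη2 : 0 < η ^ 2 := by positivity
  -- basic functions
  set R : X → ℝ := fun x => ‖a x‖ ^ 2 + ‖b x‖ ^ 2 with hRdef
  have hRc : Continuous R := (a.continuous.norm.pow 2).add (b.continuous.norm.pow 2)
  set R' : X → ℝ := fun x => max (R x) (η ^ 2 / 4) with hR'def
  have hR'c : Continuous R' := hRc.max continuous_const
  have hR'pos : ∀ x, 0 < R' x := fun x => lt_of_lt_of_le (by positivity) (le_max_right _ _)
  have hR'ge : ∀ x, η ^ 2 / 4 ≤ R' x := fun x => le_max_right _ _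
  have hRR' : ∀ x, R x ≤ R' x := fun x => le_max_left _ _
  set D : X → ℂ := fun x => h x - a x * b x with hD
  have hDc : Continuous D := h.continuous.sub (a.continuous.mul b.continuous)
  have hDR : ∀ x, 2 * ‖D x‖ / R' x < 1 / 2 := by
    intro x
    rw [div_lt_iff₀ (hR'pos x)]
    have := hh x
    have := hR'ge x
    linarith
  set q : X → ℂ := fun x => qq (a x) (b x) (D x) (R' x) with hq
  have hq1 : ∀ x, ‖q x‖ < 1 := by
    intro x
    have h1 := norm_qq_le (a x) (b x) (D x) (R' x) (hR'pos x) (hRR' x)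
    have h2 := hDR x
    linarith
  have hR'cc : Continuous (fun x => ((R' x : ℝ) : ℂ)) := Complex.continuous_ofReal.comp hR'c
  have hR'ne : ∀ x, ((R' x : ℝ) : ℂ) ≠ 0 := fun x => by exact_mod_cast (hR'pos x).ne'
  have hconj : ∀ g : C(X, ℂ), Continuous (fun x => (starRingEnd ℂ) (g x)) := fun g =>
    Complex.continuous_conj.comp g.continuous
  have hqc : Continuous q := by
    refine Continuous.div ?_ (hR'cc.pow 2) (fun x => pow_ne_zero _ (hR'ne x))
    exact ((continuous_const.mul (hconj a)).mul (hconj b)).mul hDc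
  set θ : X → ℂ := fun x => th (a x) (b x) (D x) (R' x) with hθ
  have hθc : Continuous θ := by
    refine Continuous.div (continuous_const.mul hDc) (hR'cc.mul (continuous_const.add
      (continuous_rt_comp q hqc hq1))) (fun x => mul_ne_zero (hR'ne x) (one_add_rt_ne _))
  have hθn : ∀ x, ‖θ x‖ ≤ 2 * ‖D x‖ / R' x := fun x => norm_th_le _ _ _ _ (hR'pos x)
  have hθ2 : ∀ x, ‖θ x‖ ≤ 1 / 2 := fun x => (hθn x).trans (hDR x).le
  set u₀ : X → ℂ := fun x => a x + θ x * (starRingEnd ℂ) (b x) with hu₀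
  set v₀ : X → ℂ := fun x => b x + θ x * (starRingEnd ℂ) (a x) with hv₀
  have hu₀c : Continuous u₀ := a.continuous.add (hθc.mul (hconj b))
  have hv₀c : Continuous v₀ := b.continuous.add (hθc.mul (hconj a))
  -- the closed sets
  set A : Set X := {x | η ^ 2 / 4 ≤ R x} with hA
  set B : Set X := {x | R x ≤ η ^ 2 / 4} with hB
  have hAc : IsClosed A := isClosed_le continuous_const hRc
  have hBc : IsClosed B := isClosed_le hRc continuous_const
  have hprod : ∀ x ∈ A, u₀ x * v₀ x = h x := by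
    intro x hx
    have hx' : η ^ 2 / 4 ≤ R x := hx
    have hRx : R' x = R x := max_eq_left hx'
    have h1 := prod_formula (a x) (b x) (D x) (R x) rfl (by rw [← hRx]; exact hR'pos x)
      (by rw [← hRx]; exact hq1 x)
    rw [← hRx] at h1
    rw [hu₀, hv₀]
    show (a x + th (a x) (b x) (D x) (R' x) * (starRingEnd ℂ) (b x)) *
      (b x + th (a x) (b x) (D x) (R' x) * (starRingEnd ℂ) (a x)) = h x
    rw [h1]
    show a x * b x + (h x - a x * b x) = h x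
    ring
  -- the cutoff
  set χ : X → ℝ := fun x => max 0 (min 1 ((4 * R x - η ^ 2) / (3 * η ^ 2))) with hχ
  have hχc : Continuous χ := continuous_const.max (continuous_const.min
    (((continuous_const.mul hRc).sub continuous_const).div_const _))
  have hχ0 : ∀ x, 0 ≤ χ x := fun x => le_max_left _ _
  have hχ1 : ∀ x, χ x ≤ 1 := fun x => max_le zero_le_one (min_le_left _ _)
  have hχB : ∀ x ∈ B, χ x = 0 := by
    intro x hx
    have hx' : R x ≤ η ^ 2 / 4 := hx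
    apply max_eq_left
    refine (min_le_right _ _).trans ?_
    apply div_nonpos_of_nonpos_of_nonneg <;> nlinarith
  have hχbig : ∀ x, η ^ 2 ≤ R x → χ x = 1 := by
    intro x hx
    have h1 : 1 ≤ (4 * R x - η ^ 2) / (3 * η ^ 2) := by
      rw [le_div_iff₀ (by positivity)]
      linarith
    show max 0 (min 1 ((4 * R x - η ^ 2) / (3 * η ^ 2))) = 1
    rw [min_eq_left h1]
    exact max_eq_right zero_le_one
  set ρ : X → ℝ := fun x => χ x * (‖u₀ x‖ ^ 2 - ‖v₀ x‖ ^ 2) with hρ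
  have hρc : Continuous ρ := hχc.mul ((hu₀c.norm.pow 2).sub (hv₀c.norm.pow 2))
  set Mu : X → ℝ := fun x => md ‖h x‖ (ρ x) with hMu
  set Mv : X → ℝ := fun x => md ‖h x‖ (-ρ x) with hMv
  have hmdc : ∀ g : X → ℝ, Continuous g → Continuous (fun x => md ‖h x‖ (g x)) := by
    intro g hg
    unfold md
    exact ((hg.add ((hg.pow 2).add (continuous_const.mul (h.continuous.norm.pow 2))).sqrt).div_const
      _).sqrt
  have hMuc : Continuous Mu := hmdc _ hρc
  have hMvc : Continuous Mv := hmdc _ hρc.neg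
  have hMuv : ∀ x, Mu x * Mv x = ‖h x‖ := fun x => md_mul _ _ (norm_nonneg _)
  have hMuB : ∀ x ∈ B, Mu x = Real.sqrt ‖h x‖ := by
    intro x hx
    show md ‖h x‖ (χ x * (‖u₀ x‖ ^ 2 - ‖v₀ x‖ ^ 2)) = _
    rw [hχB x hx, zero_mul]
    exact md_zero_right _ (norm_nonneg _)
  have hMvB : ∀ x ∈ B, Mv x = Real.sqrt ‖h x‖ := by
    intro x hx
    show md ‖h x‖ (-(χ x * (‖u₀ x‖ ^ 2 - ‖v₀ x‖ ^ 2))) = _
    rw [hχB x hx, zero_mul, neg_zero]
    exact md_zero_right _ (norm_nonneg _)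
  have hMu0 : ∀ x ∈ A, u₀ x = 0 → Mu x = 0 := by
    intro x hx h0
    have h1 : h x = 0 := by rw [← hprod x hx, h0, zero_mul]
    show md ‖h x‖ (χ x * (‖u₀ x‖ ^ 2 - ‖v₀ x‖ ^ 2)) = 0
    rw [h1, h0, norm_zero]
    apply md_zero_left
    have := mul_nonneg (hχ0 x) (sq_nonneg ‖v₀ x‖)
    nlinarith
  have hMv0 : ∀ x ∈ A, v₀ x = 0 → Mv x = 0 := by
    intro x hx h0
    have h1 : h x = 0 := by rw [← hprod x hx, h0, mul_zero]
    show md ‖h x‖ (-(χ x * (‖u₀ x‖ ^ 2 - ‖v₀ x‖ ^ 2))) = 0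
    rw [h1, h0, norm_zero]
    apply md_zero_left
    have := mul_nonneg (hχ0 x) (sq_nonneg ‖u₀ x‖)
    nlinarith
  -- the first factor
  obtain ⟨u, hunorm, huA⟩ := extend_modulus hX hAc ⟨Mu, hMuc⟩ (fun x => md_nonneg _ _)
    (fun x => (Mu x : ℂ) * (u₀ x / (‖u₀ x‖ : ℝ)))
    (phase_continuousOn u₀ Mu hu₀c.continuousOn hMuc.continuousOn hMu0)
    (fun x hx => phase_norm _ _ (md_nonneg _ _) (hMu0 x hx))
  have hunorm' : ∀ x, ‖u x‖ = Mu x := hunorm
  -- the second factor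
  set f₁ : X → ℂ := fun x => (Mv x : ℂ) * (v₀ x / (‖v₀ x‖ : ℝ)) with hf₁
  set f₂ : X → ℂ := fun x => (Real.sqrt ‖h x‖ : ℂ) * ((h x * (starRingEnd ℂ) (u x)) /
    (‖h x * (starRingEnd ℂ) (u x)‖ : ℝ)) with hf₂
  have hf₁c : ContinuousOn f₁ A :=
    phase_continuousOn v₀ Mv hv₀c.continuousOn hMvc.continuousOn hMv0
  have hf₂0 : ∀ x ∈ B, h x * (starRingEnd ℂ) (u x) = 0 → Real.sqrt ‖h x‖ = 0 := by
    intro x hx h0
    rcases mul_eq_zero.1 h0 with h1 | h1
    · rw [h1, norm_zero, Real.sqrt_zero]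
    · rw [← hMuB x hx, ← hunorm' x]
      rw [map_eq_zero] at h1
      rw [h1, norm_zero]
  have hf₂c : ContinuousOn f₂ B :=
    phase_continuousOn (fun x => h x * (starRingEnd ℂ) (u x)) (fun x => Real.sqrt ‖h x‖)
      (h.continuous.mul (hconj u)).continuousOn h.continuous.norm.sqrt.continuousOn hf₂0
  have hf₁u : ∀ x ∈ A, u x * f₁ x = h x := by
    intro x hx
    rw [huA x hx, hf₁]
    show ((Mu x : ℂ) * (u₀ x / (‖u₀ x‖ : ℝ))) * ((Mv x : ℂ) * (v₀ x / (‖v₀ x‖ : ℝ))) = h x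
    have h1 : ((Mu x : ℂ) * (u₀ x / (‖u₀ x‖ : ℝ))) * ((Mv x : ℂ) * (v₀ x / (‖v₀ x‖ : ℝ)))
        = ((Mu x * Mv x : ℝ) : ℂ) * ((u₀ x * v₀ x) / ((‖u₀ x‖ * ‖v₀ x‖ : ℝ))) := by
      push_cast
      ring
    rw [h1, hMuv x, hprod x hx, ← norm_mul, hprod x hx]
    by_cases hh0 : h x = 0
    · simp [hh0]
    · have : ((‖h x‖ : ℝ) : ℂ) ≠ 0 := by exact_mod_cast norm_ne_zero_iff.2 hh0
      field_simp
  have hf₂u : ∀ x ∈ B, u x * f₂ x = h x := by
    intro x hx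
    have hux : ‖u x‖ = Real.sqrt ‖h x‖ := by rw [hunorm' x, hMuB x hx]
    by_cases hh0 : h x = 0
    · have : u x = 0 := by
        rw [← norm_eq_zero, hux, hh0, norm_zero, Real.sqrt_zero]
      rw [this, hh0, zero_mul]
    · have hn : ‖h x‖ ≠ 0 := norm_ne_zero_iff.2 hh0
      have hs : Real.sqrt ‖h x‖ ≠ 0 := (Real.sqrt_ne_zero (norm_nonneg _)).2 hn
      have hss : Real.sqrt ‖h x‖ * Real.sqrt ‖h x‖ = ‖h x‖ := Real.mul_self_sqrt (norm_nonneg _)
      have huu : u x * (starRingEnd ℂ) (u x) = ((‖h x‖ : ℝ) : ℂ) := by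
        rw [Complex.mul_conj, Complex.normSq_eq_norm_sq, hux, sq, hss]
      have hnc : ((‖h x‖ : ℝ) : ℂ) ≠ 0 := by exact_mod_cast hn
      have hsc : ((Real.sqrt ‖h x‖ : ℝ) : ℂ) ≠ 0 := by exact_mod_cast hs
      show u x * ((Real.sqrt ‖h x‖ : ℂ) * ((h x * (starRingEnd ℂ) (u x)) /
        (‖h x * (starRingEnd ℂ) (u x)‖ : ℝ))) = h x
      rw [norm_mul, RCLike.norm_conj, hux]
      push_cast
      have h3 : u x * (((Real.sqrt ‖h x‖ : ℝ) : ℂ) * (h x * (starRingEnd ℂ) (u x) /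
          (((‖h x‖ : ℝ) : ℂ) * ((Real.sqrt ‖h x‖ : ℝ) : ℂ))))
          = h x * (u x * (starRingEnd ℂ) (u x)) / ((‖h x‖ : ℝ) : ℂ) := by
        field_simp
      rw [h3, huu]
      field_simp
  have hoverlap : ∀ x ∈ A, x ∈ B → f₁ x = f₂ x := by
    intro x hxA hxB
    by_cases hh0 : h x = 0
    · have h1 : f₁ x = 0 := by
        show (Mv x : ℂ) * (v₀ x / (‖v₀ x‖ : ℝ)) = 0
        rw [hMvB x hxB, hh0]
        simp
      have h2 : f₂ x = 0 := by
        show (Real.sqrt ‖h x‖ : ℂ) * ((h x * (starRingEnd ℂ) (u x)) /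
          (‖h x * (starRingEnd ℂ) (u x)‖ : ℝ)) = 0
        rw [hh0]
        simp
      rw [h1, h2]
    · have hu0 : u x ≠ 0 := by
        intro h0
        have := hf₁u x hxA
        rw [h0, zero_mul] at this
        exact hh0 this.symm
      apply mul_left_cancel₀ hu0
      rw [hf₁u x hxA, hf₂u x hxB]
  set v : X → ℂ := fun x => if x ∈ A then f₁ x else f₂ x with hv
  have hvA : ∀ x ∈ A, v x = f₁ x := fun x hx => by simp [hv, hx]
  have hvB : ∀ x ∈ B, v x = f₂ x := by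
    intro x hx
    by_cases hxA : x ∈ A
    · rw [hvA x hxA, hoverlap x hxA hx]
    · simp [hv, hxA]
  have hAB : A ∪ B = Set.univ := by
    rw [Set.eq_univ_iff_forall]
    intro x
    rcases le_total (η ^ 2 / 4) (R x) with h1 | h1
    · exact Or.inl h1
    · exact Or.inr h1
  have hvc : Continuous v := by
    rw [← continuousOn_univ, ← hAB]
    exact (hf₁c.congr hvA).union_of_isClosed (hf₂c.congr hvB) hAc hBc
  have huv : ∀ x, u x * v x = h x := by
    intro x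
    rcases (hAB ▸ Set.mem_univ x : x ∈ A ∪ B) with hx | hx
    · rw [hvA x hx, hf₁u x hx]
    · rw [hvB x hx, hf₂u x hx]
  have hvnorm : ∀ x, ‖v x‖ = Mv x := by
    intro x
    rcases (hAB ▸ Set.mem_univ x : x ∈ A ∪ B) with hx | hx
    · rw [hvA x hx]
      exact phase_norm _ _ (md_nonneg _ _) (hMv0 x hx)
    · rw [hvB x hx, hMvB x hx]
      exact phase_norm _ _ (Real.sqrt_nonneg _) (hf₂0 x hx)
  -- estimates
  have hbig : ∀ x, η ^ 2 ≤ R x → u x = u₀ x ∧ v x = v₀ x := by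
    intro x hx
    have hxA : x ∈ A := by
      show η ^ 2 / 4 ≤ R x
      linarith
    have hρx : ρ x = ‖u₀ x‖ ^ 2 - ‖v₀ x‖ ^ 2 := by
      show χ x * _ = _
      rw [hχbig x hx, one_mul]
    have hnh : ‖h x‖ = ‖u₀ x‖ * ‖v₀ x‖ := by rw [← norm_mul, hprod x hxA]
    have hMux : Mu x = ‖u₀ x‖ := by
      show md ‖h x‖ (ρ x) = _
      rw [hρx, hnh]
      exact md_eq _ _ (norm_nonneg _)
    have hMvx : Mv x = ‖v₀ x‖ := by
      show md ‖h x‖ (-ρ x) = _
      rw [hρx, hnh, neg_sub, mul_comm]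
      exact md_eq _ _ (norm_nonneg _)
    constructor
    · rw [huA x hxA]
      show (Mu x : ℂ) * (u₀ x / (‖u₀ x‖ : ℝ)) = u₀ x
      rw [hMux]
      by_cases h0 : u₀ x = 0
      · simp [h0]
      · have : ((‖u₀ x‖ : ℝ) : ℂ) ≠ 0 := by exact_mod_cast norm_ne_zero_iff.2 h0
        field_simp
    · rw [hvA x hxA]
      show (Mv x : ℂ) * (v₀ x / (‖v₀ x‖ : ℝ)) = v₀ x
      rw [hMvx]
      by_cases h0 : v₀ x = 0
      · simp [h0]
      · have : ((‖v₀ x‖ : ℝ) : ℂ) ≠ 0 := by exact_mod_cast norm_ne_zero_iff.2 h0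
        field_simp
  have hθsmall : ∀ x (y : ℝ), 0 ≤ y → y ^ 2 ≤ R x → η ^ 2 ≤ R x → ‖θ x‖ * y ≤ η := by
    intro x y hy0 hy hx
    have h1 : R x ≤ R' x := hRR' x
    have hpos := hR'pos x
    have h2 : ‖θ x‖ * R' x ≤ 2 * ‖D x‖ := by
      have := hθn x
      rwa [le_div_iff₀ hpos] at this
    have h3 : y * η ≤ R' x := by nlinarith [sq_nonneg (y - η)]
    have h4 : ‖θ x‖ * (y * η) ≤ 2 * ‖D x‖ :=
      (mul_le_mul_of_nonneg_left h3 (norm_nonneg _)).trans h2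
    have h5 : ‖D x‖ < η ^ 2 / 16 := hh x
    have h6 : (‖θ x‖ * y) * η ≤ η * η := by nlinarith
    exact le_of_mul_le_mul_right h6 hη
  have hsmall : ∀ x, R x ≤ η ^ 2 → ‖a x‖ ≤ η ∧ ‖b x‖ ≤ η ∧ |ρ x| + ‖h x‖ ≤ (2 * η) ^ 2 := by
    intro x hx
    have hx' : ‖a x‖ ^ 2 + ‖b x‖ ^ 2 ≤ η ^ 2 := hx
    have ha : ‖a x‖ ≤ η := abs_le_of_sq_le_sq' (by nlinarith [sq_nonneg ‖b x‖]) hη.le |>.2
    have hb : ‖b x‖ ≤ η := abs_le_of_sq_le_sq' (by nlinarith [sq_nonneg ‖a x‖]) hη.le |>.2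
    refine ⟨ha, hb, ?_⟩
    have hu : ‖u₀ x‖ ≤ 3 / 2 * η := by
      calc ‖u₀ x‖ ≤ ‖a x‖ + ‖θ x * (starRingEnd ℂ) (b x)‖ := norm_add_le _ _
        _ = ‖a x‖ + ‖θ x‖ * ‖b x‖ := by rw [norm_mul, RCLike.norm_conj]
        _ ≤ η + 1 / 2 * η := by
            have := mul_le_mul (hθ2 x) hb (norm_nonneg _) (by norm_num : (0:ℝ) ≤ 1 / 2)
            linarith
        _ = 3 / 2 * η := by ring
    have hv : ‖v₀ x‖ ≤ 3 / 2 * η := by
      calc ‖v₀ x‖ ≤ ‖b x‖ + ‖θ x * (starRingEnd ℂ) (a x)‖ := norm_add_le _ _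
        _ = ‖b x‖ + ‖θ x‖ * ‖a x‖ := by rw [norm_mul, RCLike.norm_conj]
        _ ≤ η + 1 / 2 * η := by
            have := mul_le_mul (hθ2 x) ha (norm_nonneg _) (by norm_num : (0:ℝ) ≤ 1 / 2)
            linarith
        _ = 3 / 2 * η := by ring
    have hρ1 : |ρ x| ≤ (3 / 2 * η) ^ 2 := by
      show |χ x * (‖u₀ x‖ ^ 2 - ‖v₀ x‖ ^ 2)| ≤ _
      rw [abs_mul, abs_of_nonneg (hχ0 x)]
      have h1 : |‖u₀ x‖ ^ 2 - ‖v₀ x‖ ^ 2| ≤ (3 / 2 * η) ^ 2 := by
        rw [abs_le]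
        have h2 : ‖u₀ x‖ ^ 2 ≤ (3 / 2 * η) ^ 2 := pow_le_pow_left₀ (norm_nonneg _) hu 2
        have h3 : ‖v₀ x‖ ^ 2 ≤ (3 / 2 * η) ^ 2 := pow_le_pow_left₀ (norm_nonneg _) hv 2
        constructor
        · nlinarith [sq_nonneg ‖u₀ x‖]
        · nlinarith [sq_nonneg ‖v₀ x‖]
      calc χ x * |‖u₀ x‖ ^ 2 - ‖v₀ x‖ ^ 2| ≤ 1 * (3 / 2 * η) ^ 2 :=
            mul_le_mul (hχ1 x) h1 (abs_nonneg _) zero_le_one
        _ = (3 / 2 * η) ^ 2 := one_mul _
    have hhx : ‖h x‖ ≤ η ^ 2 / 2 + η ^ 2 / 16 := by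
      have h1 : h x = a x * b x + D x := by
        show h x = a x * b x + (h x - a x * b x)
        ring
      have h2 : ‖h x‖ ≤ ‖a x‖ * ‖b x‖ + ‖D x‖ := by
        rw [h1, ← norm_mul]
        exact norm_add_le _ _
      have h3 : ‖D x‖ < η ^ 2 / 16 := hh x
      have h4 : ‖a x‖ * ‖b x‖ ≤ η ^ 2 / 2 := by nlinarith [sq_nonneg (‖a x‖ - ‖b x‖)]
      linarith
    nlinarith
  refine ⟨u, ⟨v, hvc⟩, ?_, ?_, ?_⟩
  · ext x
    exact huv x
  · intro x
    rcases le_total (η ^ 2) (R x) with hx | hx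
    · rw [(hbig x hx).1]
      have h1 : u₀ x - a x = θ x * (starRingEnd ℂ) (b x) := by
        show a x + θ x * (starRingEnd ℂ) (b x) - a x = _
        ring
      rw [h1, norm_mul, RCLike.norm_conj]
      have := hθsmall x ‖b x‖ (norm_nonneg _) (by
        show ‖b x‖ ^ 2 ≤ ‖a x‖ ^ 2 + ‖b x‖ ^ 2
        nlinarith [sq_nonneg ‖a x‖]) hx
      linarith
    · obtain ⟨ha, -, hs⟩ := hsmall x hx
      have h1 : ‖u x‖ ≤ 2 * η := by
        have h2 : ‖u x‖ ^ 2 ≤ (2 * η) ^ 2 := by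
          rw [hunorm' x]
          exact (md_sq_le _ _ (norm_nonneg _)).trans hs
        exact abs_le_of_sq_le_sq' h2 (by positivity) |>.2
      have := norm_sub_le (u x) (a x)
      linarith
  · intro x
    show ‖v x - b x‖ ≤ 3 * η
    rcases le_total (η ^ 2) (R x) with hx | hx
    · rw [(hbig x hx).2]
      have h1 : v₀ x - b x = θ x * (starRingEnd ℂ) (a x) := by
        show b x + θ x * (starRingEnd ℂ) (a x) - b x = _
        ring
      rw [h1, norm_mul, RCLike.norm_conj]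
      have := hθsmall x ‖a x‖ (norm_nonneg _) (by
        show ‖a x‖ ^ 2 ≤ ‖a x‖ ^ 2 + ‖b x‖ ^ 2
        nlinarith [sq_nonneg ‖b x‖]) hx
      linarith
    · obtain ⟨-, hb, hs⟩ := hsmall x hx
      have h1 : ‖v x‖ ≤ 2 * η := by
        have h2 : ‖v x‖ ^ 2 ≤ (2 * η) ^ 2 := by
          rw [hvnorm x]
          refine (md_sq_le _ _ (norm_nonneg _)).trans ?_
          rw [abs_neg]
          exact hs
        exact abs_le_of_sq_le_sq' h2 (by positivity) |>.2
      have := norm_sub_le (v x) (b x)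
      linarith

end Pool.Agent.H62B
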